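import Pool.Agent.U758.NN.Param

/-!
# Poisson-de Rham homology differs from the Hochschild homology of every quantization

Let `X = Spec O`, where `O = ℂ + (x, y) ^ 2 ⊆ ℂ[x, y]` is the Poisson subalgebra of all polynomials
whose two partial derivatives vanish at the origin.  The morphism `𝔸² → X` is a symplectic
resolution in the sense of the problem (proper, birational, Poisson, from a smooth symplectic
variety; `X` is not normal).  Then `HP_0^{DR}(X) = O / {O, O}` has dimension `1`, but for every
deformation quantization `A` of `ℂ[x, y]`, in particular for the global sections of every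
quantization of the structure sheaf of `𝔸²`, `HH_0(A[ħ⁻¹]) = 0`.  The parameter space
`ħ H²(𝔸²)⟦ħ⟧` is a point, and all `ħ`-homogeneous hypersurfaces in it are empty.
-/

set_option autoImplicit false

namespace Pool.Agent.Results.MP_86c931_ag.NonNormal

open Pool.Agent.TH212 Pool.Agent.U758.NN

/-- Let `O` be the algebra of all `f ∈ ℂ[x, y]` with `∂_x f (0) = ∂_y f (0) = 0`, with the
restriction `P` of the bracket `Q` of `ℂ[x, y]`, `{f, g} = ∂_y f ∂_x g - ∂_x f ∂_y g`. Then `O` is
a finitely generated domain, the morphism `𝔸² → X = Spec O` is a symplectic resolution,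
`O / {O, O}` has dimension `1`; whatever the `ħ`-homogeneous hypersurfaces `H 0, H 1, …` in the
parameter space `ħ H²(𝔸²)⟦ħ⟧`, the parameter `0` lies outside all of them; it is the only
parameter; and `HH_0(A[ħ⁻¹]) = 0` for every deformation quantization `A` of `ℂ[x, y]`. -/
theorem result :
    ∃ (O : Subalgebra ℂ (MvPolynomial (Fin 2) ℂ)) (P : PoissonBracket O)
      (Q : PoissonBracket (MvPolynomial (Fin 2) ℂ)),
      (∀ f, f ∈ O ↔ ∀ i, MvPolynomial.constantCoeff (MvPolynomial.pderiv i f) = 0) ∧
      (∀ f g, Q.br f g = MvPolynomial.pderiv 1 f * MvPolynomial.pderiv 0 g -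
        MvPolynomial.pderiv 0 f * MvPolynomial.pderiv 1 g) ∧
      IsDomain O ∧ Algebra.FiniteType ℂ O ∧ IsSymplecticResolution P Q O.val ∧
      Module.Finite ℂ P.HP0 ∧ Module.finrank ℂ P.HP0 = 1 ∧
      (∀ H : ℕ → Set (ℕ → H2), (∀ k, IsHypersurface H2 (H k)) →
        0 ∈ Param H2 \ ⋃ k, H k) ∧
      (∀ c ∈ Param H2, c = 0) ∧
      ∀ (A : Type) [Ring A] [Algebra (PowerSeries ℂ) A] (π : A →+* MvPolynomial (Fin 2) ℂ),
        IsDeformationQuantization Q π → Subsingleton (HH0 A) := by
  refine ⟨OX, PO, PR, fun _ => mem_OX, pb_apply, inferInstance, finiteType_OX, resolution,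
    finite_HP0, finrank_HP0, fun H hH => ⟨rfl, ?_⟩, fun c _ => Subsingleton.elim _ _,
    fun A _ _ π hA => HH0_subsingleton hA⟩
  rw [Set.mem_iUnion]
  rintro ⟨k, hk⟩
  rw [hypersurface_empty (hH k)] at hk
  exact hk

end Pool.Agent.Results.MP_86c931_ag.NonNormal
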